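import Pool.Agent.N855.GF.All17
import Pool.Agent.N855.GF.Cnt

/-!
# A positive proportion of nonvanishing central values for the twists of an elliptic curve of
# conductor `17`, with the exact proportion of the twists with trivial `Ш[2]`

`C : y² = x³ - 91 x - 330` is the curve `17a2`, `y² = x (x + 1) (x - 16)`; it has no complex
multiplication and no rational `3`-isogeny.  The quadratic fields are the `ℚ(√d)`, `d ≠ 1`
squarefree, of discriminant `disc d`; the twist `C_d` by `d` is the twist by `disc d`.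
* If `C_d(ℚ)` is finite and `Ш(C_d/ℚ)` has no element of order two, then `L(1, C_d) ≠ 0`.
* This is the case for exactly the proportion `c / 2`, `c = ∏_{i ≥ 0} (1 - 2^{-(2i+1)}) = 0.4194...`
  of all quadratic fields, ordered by the absolute value of the discriminant.
* So `L(1, C_d) ≠ 0` for at least the proportion `0.2097` of all quadratic fields, and
  `N_C(x) ≥ a x`, `a > 0`.

Joint work of helpers 969, 970, 971, 972, 973, 974, 975, 844, 855, 871, 875, 877, 575, 402, 295, 218,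
99, 609, 816, 809, 886, 916, 919, 958.
-/

set_option autoImplicit false

open Filter Topology

namespace Pool.Agent.Results.MP_06b0e8_nt.TwistsX17

/-- the twist `C_d : y² = x³ - 91 d² x - 330 d³` -/
def C (d : ℤ) : WeierstrassCurve ℚ :=
  { a₁ := 0, a₂ := 0, a₃ := 0, a₄ := ((-91 * d ^ 2 : ℤ) : ℚ), a₆ := ((-330 * d ^ 3 : ℤ) : ℚ) }

/-- the number of the affine points of `C_d` modulo `p` -/
noncomputable def pts (d : ℤ) (p : ℕ) : ℕ := Nat.card {q : ZMod p × ZMod p //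
  q.2 ^ 2 = q.1 ^ 3 + ((-91 * d ^ 2 : ℤ) : ZMod p) * q.1 + ((-330 * d ^ 3 : ℤ) : ZMod p)}

open Classical in
/-- `F` is entire and is for `Re s > 3/2` the `L`-function of `C_d` without the Euler factors at the
primes dividing `34 d` (`a_p = p - pts d p`) -/
def IsL (d : ℤ) (F : ℂ → ℂ) : Prop :=
  Differentiable ℂ F ∧ ∀ s : ℂ, (3 : ℝ) / 2 < s.re →
    HasProd (fun p : ℕ => if p.Prime ∧ ¬ ((p : ℤ) ∣ 34 * d) then
      (1 - ((p : ℂ) - (pts d p : ℂ)) * (p : ℂ) ^ (-s) + (p : ℂ) ^ (1 - 2 * s))⁻¹ else 1) (F s)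

/-- `L(1, C_d) ≠ 0` -/
def NonVan (d : ℤ) : Prop := ∃ F : ℂ → ℂ, IsL d F ∧ F 1 ≠ 0

/-- `C_d(ℚ)` is finite and `Ш(C_d/ℚ)` has no element of order two -/
def RankZeroShaTwo (d : ℤ) : Prop :=
  Finite (C d).toAffine.Point ∧ ∀ x : Pool.Agent.TH841.SH.D.Sha (C d), 2 • x = 0 → x = 0

/-- the discriminant of `ℚ(√d)`, `d ≠ 1` squarefree -/
def disc (d : ℤ) : ℤ := if d % 4 = 1 then d else 4 * d

/-- the number of the quadratic fields `ℚ(√d)` with `|disc d| < x` and the property `Q` of the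
squarefree integer `d` -/
noncomputable def count (Q : ℤ → Prop) (x : ℝ) : ℕ :=
  {d : ℤ | Squarefree d ∧ d ≠ 1 ∧ |(disc d : ℝ)| < x ∧ Q d}.ncard

/-- the number of the quadratic fields with `|Δ| < x` -/
noncomputable def N (x : ℝ) : ℕ := count (fun _ => True) x

/-- `N_C(x)` -/
noncomputable def NC (x : ℝ) : ℕ := count NonVan x

/-- the constant `∏ (1 - 2^{-(2i+1)}) = 0.4194...` -/
noncomputable def c : ℝ := ∏' i : ℕ, (1 - (1 / 2 : ℝ) ^ (2 * i + 1))

section proof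

open Pool.Agent.N855.GF
open Pool.Agent.N875.P17 (WS)
open Pool.Agent.N875.X15 (Fin2)
open Pool.Agent.N919.BS (NF Rt17 Fund core)
open Pool.Agent.N916.MO (G17)

theorem fin2_eq (d : ℤ) : RankZeroShaTwo d ↔ Fin2 (WS d) := by
  unfold RankZeroShaTwo Pool.Agent.N875.X15.Fin2
  refine and_congr Iff.rfl (forall_congr' fun x => ?_)
  rw [two_nsmul]
  exact Iff.rfl

theorem nonvan {d : ℤ} (hd : Squarefree d) (h : RankZeroShaTwo d) : NonVan d := by
  obtain ⟨F, h1, -, h2⟩ := Fin17.exists_L (Fin17.bsd_all hd ((fin2_eq d).1 h))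
  exact ⟨F, h1, h2⟩

theorem abs_iff (d : ℤ) (x : ℝ) (hx : 0 < x) :
    |(disc d : ℝ)| < x ↔ (disc d).natAbs ≤ ⌈x⌉₊ - 1 := by
  have hY : 0 < ⌈x⌉₊ := Nat.ceil_pos.2 hx
  rw [Ord.abs_lt_iff]
  omega

theorem count_eq (Q : ℤ → Prop) {x : ℝ} (hx : 0 < x) :
    count Q x = NF (fun d => d ≠ 1 ∧ Q d) (⌈x⌉₊ - 1) := by
  rw [← Cnt.ncard_NF]
  unfold count
  congr 1
  ext d
  constructor
  · rintro ⟨h1, h2, h3, h4⟩
    exact ⟨h1, (abs_iff d x hx).1 h3, h2, h4⟩
  · rintro ⟨h1, h3, h2, h4⟩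
    exact ⟨h1, h2, (abs_iff d x hx).2 h3, h4⟩

theorem finite_count {x : ℝ} (hx : 0 < x) (Q : ℤ → Prop) :
    {d : ℤ | Squarefree d ∧ d ≠ 1 ∧ |(disc d : ℝ)| < x ∧ Q d}.Finite := by
  refine (Finset.finite_toSet (Finset.Icc (-(⌈x⌉₊ : ℤ)) ⌈x⌉₊)).subset fun d hd => ?_
  have h2 := (abs_iff d x hx).1 hd.2.2.1
  have h3 : d.natAbs ≤ (disc d).natAbs := by
    unfold disc
    split_ifs <;> omega
  rw [Finset.mem_coe, Finset.mem_Icc]
  omega

theorem lim : Tendsto (fun x : ℝ => (count RankZeroShaTwo x : ℝ) / (N x : ℝ)) atTop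
    (𝓝 (c / 2)) := by
  have hc0 : 0 ≤ Pool.Agent.Y703.CQ.c2 / 2 := by
    have := Pool.Agent.Y948.CQ.t_C2.2.2.2.1
    linarith
  have h := Cnt.lim_one hc0 Pool.Agent.N916.MO.dens17_fd
  refine (h.comp Ord.ceil_lim).congr' ?_
  filter_upwards [eventually_gt_atTop 0] with x hx
  unfold N
  rw [count_eq RankZeroShaTwo hx, count_eq (fun _ => True) hx]
  have e : NF (fun d => d ≠ 1 ∧ RankZeroShaTwo d) (⌈x⌉₊ - 1) =
      NF (fun d => d ≠ 1 ∧ (Rt17 d ∧ G17 d)) (⌈x⌉₊ - 1) := by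
    rw [← Cnt.ncard_NF, ← Cnt.ncard_NF]
    congr 1
    ext d
    refine and_congr_right fun hd => and_congr_right fun _ => and_congr_right fun _ => ?_
    rw [fin2_eq, Fin17.fin2_all hd]
  rw [e]
  rfl

theorem mono {Q R : ℤ → Prop} (h : ∀ d, Squarefree d → Q d → R d) (x : ℝ) :
    count Q x ≤ count R x := by
  rcases le_or_gt x 0 with hx | hx
  · have e : {d : ℤ | Squarefree d ∧ d ≠ 1 ∧ |(disc d : ℝ)| < x ∧ Q d} = ∅ := by
      ext d
      constructor
      · rintro ⟨-, -, h3, -⟩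
        have := abs_nonneg (disc d : ℝ)
        exact absurd h3 (by linarith)
      · intro h
        exact absurd h (Set.notMem_empty d)
    unfold count
    rw [e, Set.ncard_empty]
    exact Nat.zero_le _
  · exact Set.ncard_le_ncard (fun d hd => ⟨hd.1, hd.2.1, hd.2.2.1, h d hd.1 hd.2.2.2⟩)
      (finite_count hx R)

end proof

theorem result :
    (∀ d : ℤ, Squarefree d → RankZeroShaTwo d → NonVan d) ∧
    Tendsto (fun x : ℝ => (count RankZeroShaTwo x : ℝ) / (N x : ℝ)) atTop (𝓝 (c / 2)) ∧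
    c / 2 ≤ liminf (fun x : ℝ => (NC x : ℝ) / (N x : ℝ)) atTop ∧
    (∃ a : ℝ, 0 < a ∧ ∀ᶠ x : ℝ in atTop, a * x ≤ (NC x : ℝ)) ∧
    0.2097 < c / 2 ∧ c / 2 < 0.2098 := by
  have hcc : Pool.Agent.Y703.CQ.c2 = c := rfl
  have hc1 : 0.4194 < c := Pool.Agent.Y948.CQ.t_C2.2.2.2.1
  have hc2 : c < 0.4195 := Pool.Agent.Y948.CQ.t_C2.2.2.2.2
  refine ⟨fun d hd h => nonvan hd h, lim, ?_, ?_, by linarith, by linarith⟩
  · refine Pool.Agent.N855.GF.Fin17.liminf_ge lim (fun X => ?_) (fun X => ?_)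
    · exact div_le_div_of_nonneg_right (Nat.cast_le.2 (mono (fun d hd h => nonvan hd h) X))
        (Nat.cast_nonneg _)
    · apply div_le_one_of_le₀ _ (Nat.cast_nonneg _)
      exact_mod_cast mono (R := fun _ => True) (fun _ _ _ => trivial) X
  · obtain ⟨a, X₀, ha, hlow⟩ := Pool.Agent.N855.GF.Cnt.lowF1
    refine ⟨c / 4 * (a / 2), by positivity, ?_⟩
    filter_upwards [lim.eventually (lt_mem_nhds (show c / 4 < c / 2 by linarith)),
      eventually_gt_atTop (X₀ + 2 : ℝ)] with x h1 h2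
    have hx : 0 < x := by
      have : (0 : ℝ) ≤ X₀ := Nat.cast_nonneg _
      linarith
    have h3 : x ≤ ⌈x⌉₊ := Nat.le_ceil x
    have h4 : X₀ + 2 < ⌈x⌉₊ := by
      rw [Nat.lt_ceil]
      exact_mod_cast h2
    have h5 := hlow (⌈x⌉₊ - 1) (by omega)
    rw [← count_eq (fun _ => True) hx] at h5
    have h6 : x / 2 ≤ ((⌈x⌉₊ - 1 : ℕ) : ℝ) := by
      have : (⌈x⌉₊ : ℝ) ≤ ((⌈x⌉₊ - 1 : ℕ) : ℝ) + 1 := by
        have : ⌈x⌉₊ ≤ ⌈x⌉₊ - 1 + 1 := by omega
        exact_mod_cast this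
      have h7 : (2 : ℝ) ≤ x := by
        have : (0 : ℝ) ≤ X₀ := Nat.cast_nonneg _
        linarith
      linarith
    have h7 : a / 2 * x ≤ (N x : ℝ) := by
      have : a * (x / 2) ≤ a * ((⌈x⌉₊ - 1 : ℕ) : ℝ) := mul_le_mul_of_nonneg_left h6 ha.le
      unfold N
      linarith
    have hN : (0 : ℝ) < (N x : ℝ) := lt_of_lt_of_le (by positivity) h7
    rw [lt_div_iff₀ hN] at h1
    have h8 : (count RankZeroShaTwo x : ℝ) ≤ (NC x : ℝ) := by
      exact_mod_cast mono (fun d hd h => nonvan hd h) x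
    have h9 : c / 4 * (a / 2 * x) ≤ c / 4 * (N x : ℝ) :=
      mul_le_mul_of_nonneg_left h7 (by linarith)
    linarith

end Pool.Agent.Results.MP_06b0e8_nt.TwistsX17
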